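import Pool.Agent.N206.HJ.Stm

/-!
# Project HJ (helper206), part DET (helper314)
-/

set_option autoImplicit false

namespace Pool.Agent.N314.HJ

open Pool.Agent.N206.HJ MvPowerSeries

variable {p : ℕ}

theorem monomial_mem (α : Fin 3 →₀ ℕ) (c : ZMod p) : (monomial α c : A p) ∈ M p α.degree := by
  classical
  intro β hβ
  rw [coeff_monomial]
  split_ifs with h
  · rw [h] at hβ
    exact absurd hβ (lt_irrefl _)
  · rfl

theorem mon {g h : Au p} {s : ℕ} (hg : g ∈ Ga p 1) (hh : h ∈ Ga p 1)
    (hX : ∀ i, g (X i) - h (X i) ∈ M p (s + 1)) :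
    ∀ (n : ℕ) (α : Fin 3 →₀ ℕ) (c : ZMod p), α.degree = n →
      g (monomial α c) - h (monomial α c) ∈ M p (n + s) := by
  intro n
  induction n with
  | zero =>
    intro α c hα
    have h0 : α = 0 := (Finsupp.degree_eq_zero_iff α).1 hα
    subst h0
    have h1 : (monomial 0 c : A p) = algebraMap (ZMod p) (A p) c := rfl
    rw [h1, AlgEquiv.commutes, AlgEquiv.commutes, sub_self]
    exact Ideal.zero_mem _
  | succ n ih =>
    intro α c hα
    have hne : α ≠ 0 := by
      rintro rfl
      simp at hα
    obtain ⟨j, hj⟩ : ∃ j, α j ≠ 0 := by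
      by_contra hcon
      push Not at hcon
      exact hne (Finsupp.ext hcon)
    obtain ⟨β, hβ⟩ : ∃ β, α = Finsupp.single j 1 + β := by
      refine ⟨α - Finsupp.single j 1, ?_⟩
      rw [add_tsub_cancel_of_le]
      rw [Finsupp.single_le_iff]
      omega
    have hd : β.degree = n := by
      have h1 : α.degree = (Finsupp.single j 1).degree + β.degree := by rw [hβ]; exact map_add _ _ _
      rw [Finsupp.degree_single] at h1
      omega
    have hm : (monomial α c : A p) = X j * monomial β c := by
      rw [hβ, X_def, monomial_mul_monomial, one_mul]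
    have h2 := ih β c hd
    have h3 : (monomial β c : A p) ∈ M p n := by
      have := monomial_mem β c
      rwa [hd] at this
    have h4 : g (monomial α c) - h (monomial α c) =
        g (X j) * (g (monomial β c) - h (monomial β c)) +
          (g (X j) - h (X j)) * h (monomial β c) := by
      rw [hm, map_mul, map_mul]; ring
    rw [h4]
    refine Ideal.add_mem _ ?_ ?_
    · have h5 := M_mul (Ga_pres hg (X_mem j)) h2
      have e : 1 + (n + s) = n + 1 + s := by ring
      rwa [e] at h5
    · have h5 := M_mul (hX j) (Ga_pres hh h3)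
      have e : s + 1 + n = n + 1 + s := by ring
      rwa [e] at h5

theorem t_DET (p : ℕ) [Fact p.Prime] : S_DET p := by
  classical
  intro g h s hg hh hX t f hf
  set S : Finset (Fin 3 →₀ ℕ) :=
    Finset.Iic (Finsupp.equivFunOnFinite.symm (fun _ : Fin 3 => t + s)) with hS
  have hSmem : ∀ α : Fin 3 →₀ ℕ, α.degree < t + s → α ∈ S := by
    intro α hα
    rw [hS, Finset.mem_Iic]
    intro i
    show α i ≤ t + s
    exact (Finsupp.le_degree i α).trans hα.le
  set F : A p := ∑ α ∈ S, monomial α (coeff α f) with hF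
  have hr : f - F ∈ M p (t + s) := by
    intro β hβ
    rw [map_sub, hF, map_sum]
    have h1 : ∑ α ∈ S, coeff β (monomial α (coeff α f)) = coeff β f := by
      rw [Finset.sum_eq_single β]
      · rw [coeff_monomial, if_pos rfl]
      · intro α _ hα
        rw [coeff_monomial, if_neg (Ne.symm hα)]
      · intro hn
        exact absurd (hSmem β hβ) hn
    rw [h1, sub_self]
  have hFm : g F - h F ∈ M p (t + s) := by
    rw [hF, map_sum, map_sum, ← Finset.sum_sub_distrib]
    apply Ideal.sum_mem
    intro α _
    by_cases h0 : coeff α f = 0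
    · rw [h0, map_zero, map_zero, map_zero, sub_self]
      exact Ideal.zero_mem _
    · have h1 : t ≤ α.degree := by
        by_contra hlt
        exact h0 (hf α (not_le.1 hlt))
      exact M_anti (by omega) (mon hg hh hX α.degree α (coeff α f) rfl)
  have h4 : g f - h f = (g F - h F) + (g (f - F) - h (f - F)) := by
    rw [map_sub, map_sub]; ring
  rw [h4]
  exact Ideal.add_mem _ hFm (Ideal.sub_mem _ (Ga_pres hg hr) (Ga_pres hh hr))

theorem t_DET2 (p : ℕ) [Fact p.Prime] : S_DET2 p := by
  refine ⟨?_, ?_⟩
  · intro g hg h hh hX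
    apply AlgEquiv.ext
    intro f
    rw [← sub_eq_zero]
    apply M_all
    intro s
    have h1 := t_DET p g h s hg hh (fun i => by
      rw [hX i, sub_self]; exact Ideal.zero_mem _) 0 f (M_zero f)
    rwa [zero_add] at h1
  · intro g hg k hX
    have key : ∀ t : ℕ, ∀ f ∈ M p t, g f - f ∈ M p (t + k) := by
      intro t f hf
      exact t_DET p g 1 k hg (Ga p 1).one_mem (fun i => hX i) t f hf
    intro t f hf
    refine ⟨key t f hf, ?_⟩
    have h1 : g⁻¹ f ∈ M p t := Ga_pres ((Ga p 1).inv_mem hg) hf
    have h2 := key t (g⁻¹ f) h1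
    rw [inv_ap] at h2
    have h3 : g.symm f - f = -(f - g⁻¹ f) := by
      rw [inv_eq]; ring
    rw [h3]
    exact (M p (t + k)).neg_mem h2

end Pool.Agent.N314.HJ
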